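import Pool.Agent.N869.ZE.Stm

/-!
# Project ZE: basic lemmas on the numbers of labels
-/

set_option autoImplicit false
set_option linter.unusedSectionVars false

open scoped Classical

namespace Pool.Agent.N869.ZE

open Finset
open Pool.Agent.N869.QT.G (sys exC pr Dep)

variable {R V : Type}

theorem filter_card_inst {α : Type} (p : α → Prop) (h1 h2 : DecidablePred p) (s : Finset α) :
    (@Finset.filter α p h1 s).card = (@Finset.filter α p h2 s).card := by
  have : h1 = h2 := Subsingleton.elim _ _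
  rw [this]

theorem mem_sys {I Q : Type} {γ : R → Q} {E : I → Finset Q} {S : Finset R} {a : I} {p : R} :
    p ∈ sys γ E S a ↔ p ∈ S ∧ γ p ∈ E a := by
  unfold sys
  rw [mem_filter]

theorem lc_eq {Q : Type} (γ : R → Q) (lv : R → V) (p : R) (q : Q) (v : V) :
    lc γ lv p = (q, v) ↔ γ p = q ∧ lv p = v := by
  unfold lc
  exact Prod.mk.injEq _ _ _ _ ▸ Iff.rfl

/-- the numbers of the labels in the system -/
theorem mrg_cnt {I Q : Type} (γ : R → Q) (lv : R → V) (E : I → Finset Q) (S : Finset R) (a : I)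
    (v : V) : mrg E (cnt (lc γ lv) S) a v = cnt lv (sys γ E S a) v := by
  unfold mrg cnt
  have h : ((sys γ E S a).filter fun p => lv p = v).card =
      ∑ q ∈ E a, (((sys γ E S a).filter fun p => lv p = v).filter fun p => γ p = q).card := by
    refine card_eq_sum_card_fiberwise fun p hp => ?_
    rw [mem_coe, mem_filter, mem_sys] at hp
    exact hp.1.2
  rw [h]
  refine sum_congr rfl fun q hq => ?_
  congr 1
  ext p
  simp only [mem_filter, mem_sys, lc_eq]
  constructor
  · rintro ⟨h1, h2, h3⟩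
    exact ⟨⟨⟨h1, by rw [h2]; exact hq⟩, h3⟩, h2⟩
  · rintro ⟨⟨⟨h1, -⟩, h3⟩, h2⟩
    exact ⟨h1, h2, h3⟩

/-- a label that does not occur -/
theorem cnt_zero {Q : Type} (γ : R → Q) (lv : R → V) (S : Finset R) (p : R) (hp : p ∈ S) :
    cnt (lc γ lv) S (γ p, lv p) ≠ 0 := by
  unfold cnt
  refine (card_pos.2 ⟨p, ?_⟩).ne'
  simp only [mem_filter]
  exact ⟨hp, rfl⟩

theorem sum_cnt [Fintype V] {M : Type} [CommSemiring M] (lv : R → V) (S : Finset R) (f : V → M) :
    ∑ v, (cnt lv S v : M) * f v = ∑ p ∈ S, f (lv p) := by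
  have h : ∑ p ∈ S, f (lv p) = ∑ v, ∑ p ∈ S.filter (fun p => lv p = v), f (lv p) :=
    (sum_fiberwise_of_maps_to (fun p _ => mem_univ _) _).symm
  rw [h]
  refine sum_congr rfl fun v _ => ?_
  have h1 : ∑ p ∈ S.filter (fun p => lv p = v), f (lv p) =
      ∑ p ∈ S.filter (fun p => lv p = v), f v :=
    sum_congr rfl fun p hp => by rw [(mem_filter.1 hp).2]
  rw [h1, sum_const, nsmul_eq_mul]
  rfl

/-- the number of the elements with labels in a set -/
theorem sum_cnt_filter [Fintype V] (lv : R → V) (S : Finset R) (T : V → Prop) [DecidablePred T]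
    [DecidablePred fun p => T (lv p)] :
    ∑ v ∈ univ.filter T, cnt lv S v = (S.filter fun p => T (lv p)).card := by
  have h : (S.filter fun p => T (lv p)).card =
      ∑ v ∈ univ.filter T, ((S.filter fun p => T (lv p)).filter fun p => lv p = v).card := by
    refine card_eq_sum_card_fiberwise fun p hp => ?_
    rw [mem_coe, mem_filter] at hp
    rw [mem_coe, mem_filter]
    exact ⟨mem_univ _, hp.2⟩
  rw [h]
  refine sum_congr rfl fun v hv => ?_
  unfold cnt
  congr 1
  ext p
  rw [mem_filter, mem_filter, mem_filter]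
  constructor
  · rintro ⟨h1, h2⟩
    exact ⟨⟨h1, by rw [h2]; exact (mem_filter.1 hv).2⟩, h2⟩
  · rintro ⟨⟨h1, -⟩, h2⟩
    exact ⟨h1, h2⟩

theorem sys_congr {I Q : Type} {γ γ' : R → Q} {E : I → Finset Q} {S : Finset R}
    (h : ∀ p ∈ S, γ p = γ' p) (a : I) : sys γ E S a = sys γ' E S a := by
  unfold sys
  exact Finset.filter_congr fun p hp => by rw [h p hp]

theorem cnt_congr {Q : Type} {γ γ' : R → Q} {lv : R → V} {S : Finset R}
    (h : ∀ p ∈ S, γ p = γ' p) : cnt (lc γ lv) S = cnt (lc γ' lv) S := by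
  funext l
  unfold cnt
  congr 1
  ext p
  simp only [mem_filter]
  constructor
  · rintro ⟨h1, h2⟩
    refine ⟨h1, ?_⟩
    rw [← h2]
    unfold lc
    rw [h p h1]
  · rintro ⟨h1, h2⟩
    refine ⟨h1, ?_⟩
    rw [← h2]
    unfold lc
    rw [h p h1]

section prs

variable {Q : Type} [Fintype Q] [Nonempty Q]

theorem pr_nonneg (S : Finset R) (P : (R → Q) → Prop) : 0 ≤ pr S P := by
  unfold pr
  positivity

theorem pr_mono {S : Finset R} {P P' : (R → Q) → Prop} (h : ∀ γ, P γ → P' γ) : pr S P ≤ pr S P' := by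
  unfold pr
  have h1 : (univ.filter fun c : S → Q => P (exC S c)) ⊆ univ.filter fun c : S → Q => P' (exC S c) :=
    fun c hc => by
      rw [mem_filter] at hc ⊢
      exact ⟨hc.1, h _ hc.2⟩
  have h2 : ((univ.filter fun c : S → Q => P (exC S c)).card : ℝ) ≤
      ((univ.filter fun c : S → Q => P' (exC S c)).card : ℝ) := by exact_mod_cast card_le_card h1
  exact div_le_div_of_nonneg_right h2 (by positivity)

theorem pr_false {S : Finset R} {P : (R → Q) → Prop} (h : ∀ γ, ¬ P γ) : pr S P = 0 := by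
  unfold pr
  rw [filter_false_of_mem fun c _ => h _]
  simp

theorem pr_le_one (S : Finset R) (P : (R → Q) → Prop) : pr S P ≤ 1 := by
  unfold pr
  have h1 : (0 : ℝ) < (Fintype.card Q : ℝ) ^ S.card := by
    have : (0 : ℝ) < Fintype.card Q := by exact_mod_cast Fintype.card_pos
    positivity
  rw [div_le_one h1]
  have h2 : (univ.filter fun c : S → Q => P (exC S c)).card ≤ Fintype.card (S → Q) :=
    card_le_univ _
  have h3 : Fintype.card (S → Q) = Fintype.card Q ^ S.card := by
    rw [Fintype.card_fun, Fintype.card_coe]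
  rw [h3] at h2
  exact_mod_cast h2

theorem pr_congr {S : Finset R} {P P' : (R → Q) → Prop} (h : ∀ γ, P γ ↔ P' γ) : pr S P = pr S P' := by
  have : P = P' := funext fun γ => propext (h γ)
  rw [this]

end prs

end Pool.Agent.N869.ZE
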