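import Pool.Agent.N916.GB.Stm
import Pool.Agent.N869.QT.G.Stm

/-!
# Project ZE (helper869): coloured sets of primes over `ℚ`, the abstract engine

`SA X` (project GB) is the set of all finite sets of odd primes with product at most `X`. A label is a
function `lab : ℕ → Λ` to a finite type; `cnt lab S l` is the number of the elements of `S` with label `l`.
`P : (Λ → ℕ) → Prop` is any condition on these numbers. `G` is a property of sets (good), `N S₀ S₁` a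
property of the small and the large primes of a set (not degenerate).

* `BoxA`: in every box of large primes with constant labels the proportion of the good sets is close to
  `g`, if the bilinear hypothesis `Pair` holds for any two sides.
* `S_KEYA`: then the same holds for the sum over the boxes.
* `S_ASYA`: the average over all sets and all colourings.
* `S_SQ2`: the second moment; for almost all the sets the proportion of the good colourings.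
-/

set_option autoImplicit false
set_option linter.unusedVariables false

open scoped Classical

namespace Pool.Agent.N869.ZE

open Finset
open Pool.Agent.Y703.CX (sm la jj XX eL zz kk)
open Pool.Agent.N916.GB (Po SA CntP)
open Pool.Agent.N869.QT.G (sys exC pr Dep)

/-- the number of the elements of `S` with label `l` -/
noncomputable def cnt {R Λ : Type} (lab : R → Λ) (S : Finset R) (l : Λ) : ℕ :=
  (S.filter fun p => lab p = l).card

/-- the bilinear estimate for the hypothesis `Pair` on two sides -/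
def BilA (Pair : Finset ℕ → Finset ℕ → ℕ → ℕ → ℝ → Prop) (C : ℝ) : Prop := 1 ≤ C ∧
  ∀ (P Q : Finset ℕ) (A B z : ℕ) (κ : ℝ), (∀ p ∈ P, Po p ∧ p ≤ A) → (∀ q ∈ Q, Po q ∧ q ≤ B) →
  Disjoint P Q → 1 ≤ z → z ≤ A → z ≤ B → 0 ≤ κ → C ≤ κ ^ 24 * z → Pair P Q A B κ

/-- the count in a box whose sides have constant labels -/
def BoxA {Λ : Type} (Pair : Finset ℕ → Finset ℕ → ℕ → ℕ → ℝ → Prop) (lab : ℕ → Λ)
    (P : (Λ → ℕ) → Prop) (N : Finset ℕ → Finset ℕ → Prop) (G : Finset ℕ → Prop) (g ε : ℝ) (B : ℕ) :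
    Prop :=
  ∀ (ι : Type) [Fintype ι] [LinearOrder ι] (τ : ι → Λ) (C : ι → Finset ℕ) (X : ι → ℕ) (κ : ℝ)
  (S₀ : Finset ℕ), 0 ≤ κ → (∀ i, (C i).card ≤ X i) →
  (∀ i l, i ≠ l → Pair (C i) (C l) (X i) (X l) κ) → (∀ u ∈ S₀, Po u) →
  (∀ i, ∀ p ∈ C i, Po p ∧ p ∉ S₀ ∧ lab p = τ i) → (∀ i l, i ≠ l → Disjoint (C i) (C l)) →
  (∀ p ∈ Fintype.piFinset C, P (cnt lab (S₀ ∪ univ.image p))) →
  |(((Fintype.piFinset C).filter fun p => N S₀ (univ.image p) ∧
        G (S₀ ∪ univ.image p)).card : ℝ) -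
      g * (((Fintype.piFinset C).filter fun p => N S₀ (univ.image p)).card : ℝ)| ≤
    ε * (((Fintype.piFinset C).filter fun p => N S₀ (univ.image p)).card : ℝ) +
    2 ^ (B * (S₀.card + Fintype.card ι + 1) ^ 2) * (κ * ∏ j, (X j : ℝ))

/-- the regular sets -/
noncomputable def RgA {Λ : Type} (lab : ℕ → Λ) (P : (Λ → ℕ) → Prop) (X z H k : ℕ) :
    Finset (Finset ℕ) :=
  (SA X).filter fun S => Set.InjOn (jj H) (la z S : Set ℕ) ∧ S.card ≤ k ∧
    (∏ p ∈ sm z S, p) * ∏ p ∈ la z S, XX H (jj H p) ≤ X ∧ P (cnt lab S)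

/-- ZE-KEY: the sum over the boxes. -/
def S_KEYA : Prop := ∀ (Λ : Type) [Fintype Λ]
  (Pair : Finset ℕ → Finset ℕ → ℕ → ℕ → ℝ → Prop) (C₁ : ℝ), BilA Pair C₁ → ∃ C : ℝ, 1 ≤ C ∧
  ∀ (lab : ℕ → Λ) (P : (Λ → ℕ) → Prop) (N : Finset ℕ → Finset ℕ → Prop) (G : Finset ℕ → Prop)
  (g ε : ℝ) (B : ℕ), 0 ≤ ε → BoxA Pair lab P N G g ε B →
  ∀ (X z H k M : ℕ) (κ : ℝ), 1 ≤ X → 1 ≤ H → 1 ≤ z → 0 ≤ κ → C ≤ κ ^ 24 * z →
  (H : ℝ) * Real.log X < M →
  |(((RgA lab P X z H k).filter fun S => N (sm z S) (la z S) ∧ G S).card : ℝ) -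
      g * (((RgA lab P X z H k).filter fun S => N (sm z S) (la z S)).card : ℝ)| ≤
    ε * ((RgA lab P X z H k).card : ℝ) +
    (C * (M + 1) : ℝ) ^ k * (2 ^ (B * (k + 1) ^ 2) * κ) * (X * (1 + Real.log X))

/-- the colour and the label -/
def lc {R Q V : Type} (γ : R → Q) (lv : R → V) (p : R) : Q × V := (γ p, lv p)

/-- the degenerate sets are rare -/
def RareA {Q V : Type} [Fintype Q] [Nonempty Q] (lv : ℕ → V) (P : (Q × V → ℕ) → Prop)
    (N : (ℕ → Q) → Finset ℕ → Finset ℕ → Prop) (ε : ℝ) : Prop :=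
  ∃ X₀ : ℕ, ∀ X : ℕ, X₀ ≤ X → ∑ S ∈ (SA X).filter (fun S => S.card ≤ kk X),
    pr S (fun γ : ℕ → Q => P (cnt (lc γ lv) S) ∧ ¬ N γ (sm (zz X) S) (la (zz X) S)) ≤ ε * X

/-- ZE-ASY: the average over all sets and colourings. -/
def S_ASYA : Prop := ∀ (Q V : Type) [Fintype Q] [Nonempty Q] [Fintype V] (lv : ℕ → V)
  (Pair : Finset ℕ → Finset ℕ → ℕ → ℕ → ℝ → Prop) (C₁ : ℝ), BilA Pair C₁ →
  ∀ (P : (Q × V → ℕ) → Prop) (N : (ℕ → Q) → Finset ℕ → Finset ℕ → Prop)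
  (G : (ℕ → Q) → Finset ℕ → Prop) (g ε : ℝ) (B : ℕ), 0 ≤ g → g ≤ 1 → 0 < ε →
  (∀ (S : Finset ℕ) (γ γ' : ℕ → Q), (∀ p ∈ S, γ p = γ' p) → (G γ S ↔ G γ' S)) →
  (∀ (S₀ S₁ : Finset ℕ) (γ γ' : ℕ → Q), (∀ p ∈ S₀ ∪ S₁, γ p = γ' p) → (N γ S₀ S₁ ↔ N γ' S₀ S₁)) →
  (∀ γ : ℕ → Q, BoxA Pair (lc γ lv) P (N γ) (G γ) g ε B) → RareA lv P N ε →
  ∃ X₀ : ℕ, ∀ X : ℕ, X₀ ≤ X →
  |∑ S ∈ SA X, pr S (fun γ : ℕ → Q => P (cnt (lc γ lv) S) ∧ G γ S) -
      g * ∑ S ∈ SA X, pr S (fun γ : ℕ → Q => P (cnt (lc γ lv) S))| ≤ 3 * ε * X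

/-! ### The second moment -/

/-- the number of the elements of every label in the system `a` -/
def mrg {I Q V : Type} (E : I → Finset Q) (n : Q × V → ℕ) (a : I) (v : V) : ℕ :=
  ∑ q ∈ E a, n (q, v)

/-- the conditions `P` to which the averages apply: the systems satisfy `Ad`, the labels in `Bad` do not
occur -/
def OkP {I Q V : Type} (E : I → Finset Q) (Ad : (V → ℕ) → Prop) (Bad : Set V)
    (P : (Q × V → ℕ) → Prop) : Prop :=
  ∀ n, P n → (∀ a, Ad (mrg E n a)) ∧ ∀ q, ∀ v ∈ Bad, n (q, v) = 0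

/-- the statement on the averages for the family `E` of sets of colours -/
def AsyE {R : Type} (SA : ℕ → Finset (Finset R)) (Gd : Finset R → Prop) (c : ℝ) {V : Type}
    (lv : R → V) (Ad : (V → ℕ) → Prop) (Bad : Set V) {I Q : Type} [Fintype I] [Fintype Q]
    [Nonempty Q] (E : I → Finset Q) : Prop :=
  ∀ P : (Q × V → ℕ) → Prop, OkP E Ad Bad P → ∀ ε : ℝ, 0 < ε → ∃ X₀ : ℕ, ∀ X : ℕ, X₀ ≤ X →
  |∑ S ∈ SA X, pr S (fun γ : R → Q => P (cnt (lc γ lv) S) ∧ ∀ a, Gd (sys γ E S a)) -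
      c ^ Fintype.card I * ∑ S ∈ SA X, pr S (fun γ : R → Q => P (cnt (lc γ lv) S))| ≤ ε * X

/-- the statement for almost all the sets -/
def SqE {R : Type} (SA : ℕ → Finset (Finset R)) (Gd : Finset R → Prop) (c : ℝ) {V : Type}
    (lv : R → V) (Ad : (V → ℕ) → Prop) (Bad : Set V) {I Q : Type} [Fintype I] [Fintype Q]
    [Nonempty Q] (E : I → Finset Q) : Prop :=
  ∀ P : (Q × V → ℕ) → Prop, OkP E Ad Bad P → ∀ δ ε : ℝ, 0 < δ → 0 < ε → ∃ X₀ : ℕ, ∀ X : ℕ, X₀ ≤ X →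
  (((SA X).filter fun S =>
    δ < |pr S (fun γ : R → Q => P (cnt (lc γ lv) S) ∧ ∀ a, Gd (sys γ E S a)) -
      c ^ Fintype.card I * pr S (fun γ : R → Q => P (cnt (lc γ lv) S))|).card : ℝ) ≤ ε * X

/-- the two families for pairs of colours -/
def EE {I Q : Type} [Fintype Q] (E : I → Finset Q) : I ⊕ I → Finset (Q × Q) :=
  Sum.elim (fun a => E a ×ˢ univ) fun a => univ ×ˢ E a

/-- ZE-SQ: the second moment. -/
def S_SQ2 : Prop := ∀ (R : Type) (SA : ℕ → Finset (Finset R)) (Gd : Finset R → Prop) (c : ℝ)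
  (V : Type) [Fintype V] (lv : R → V) (Ad : (V → ℕ) → Prop) (Bad : Set V) (I Q : Type) [Fintype I]
  [Fintype Q] [Nonempty Q] (E : I → Finset Q),
  AsyE SA Gd c lv Ad Bad (EE E) → AsyE SA Gd c lv Ad Bad (fun a : I => E a ×ˢ (univ : Finset Q)) →
  SqE SA Gd c lv Ad Bad E

end Pool.Agent.N869.ZE
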